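import Pool.Agent.Helper2.FR.Defs
import Pool.Agent.Helper90.AV.Shw
import Pool.Agent.Helper82.AV.SHS
import Pool.Agent.Helper78.AV.SH4

/-!
FR-FS: sharpness. Frobenius elements with one or two eigenvalues at the places of bad reduction of
the exceptional examples.
-/

open Module MTPairs

set_option linter.unusedVariables false
set_option linter.unusedSectionVars false

namespace FR

section
open MTPairs
variable {K : Type*} [Field K] [CharZero K] {m : Type*} [Fintype m] [DecidableEq m]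
  {J : Matrix m m K} {G : Subgroup (Matrix.GeneralLinearGroup m K)} {π : Matrix m m K}
  {W : Submodule K (m → K)} {r s : ℕ}

/-- Two square matrices with the same products with all vectors are equal. -/
private lemma mat_ext67 {A B : Matrix m m K} (h : ∀ v, A.mulVec v = B.mulVec v) : A = B :=
  Matrix.ext_of_mulVec_single fun i => h _

/-- With trivial `Γ` the conjugates are the matrices `g π g⁻¹`. -/
private lemma conj_mul67 {P : Matrix m m K} (h : IsConj ⊥ G π P) :
    ∃ g ∈ G, P * (g : Matrix m m K) = (g : Matrix m m K) * π := by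
  obtain ⟨θ, hθ, g, hg, hv⟩ := h
  rw [Subgroup.mem_bot] at hθ
  subst hθ
  refine ⟨g, hg, mat_ext67 fun v => ?_⟩
  have := hv v
  rw [Equiv.Perm.one_apply, Equiv.Perm.one_apply] at this
  rw [← Matrix.mulVec_mulVec, ← Matrix.mulVec_mulVec, this]

private lemma conj_eq67 {P : Matrix m m K} {g : Matrix.GeneralLinearGroup m K}
    (h : P * (g : Matrix m m K) = (g : Matrix m m K) * π) :
    P = (g : Matrix m m K) * π * ((g⁻¹ : Matrix.GeneralLinearGroup m K) : Matrix m m K) := by
  rw [← h, Matrix.mul_assoc, Units.mul_inv, Matrix.mul_one]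

private lemma conj_cochar67 {P : Matrix m m K} (hπ : IsCochar G π) (h : IsConj ⊥ G π P) :
    IsCochar G P := by
  obtain ⟨g, hg, hP⟩ := conj_mul67 h
  have hi := Units.inv_mul g
  have hP' := conj_eq67 hP
  obtain ⟨h1, h2⟩ := hπ
  refine ⟨?_, fun t ht => ?_⟩
  · have e : P * P * (g : Matrix m m K) = P * (g : Matrix m m K) := by
      rw [Matrix.mul_assoc, hP, ← Matrix.mul_assoc, hP, Matrix.mul_assoc, h1]
    have e2 := congrArg (fun X => X * ((g⁻¹ : Matrix.GeneralLinearGroup m K) : Matrix m m K)) e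
    simpa [Matrix.mul_assoc] using e2
  · obtain ⟨l, hl, hl2⟩ := h2 t ht
    refine ⟨g * l * g⁻¹, G.mul_mem (G.mul_mem hg hl) (G.inv_mem hg), ?_⟩
    rw [Units.val_mul, Units.val_mul, hl2, hP']
    rw [Matrix.mul_add, Matrix.add_mul, Matrix.mul_sub, Matrix.sub_mul, Matrix.mul_one,
      Units.mul_inv, Matrix.mul_smul, Matrix.smul_mul]

/-- An invertible matrix of `G` maps a stable subspace onto itself. -/
private lemma map_eq67 (hW : IsSub G W) {g : Matrix.GeneralLinearGroup m K} (hg : g ∈ G) :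
    W.map (g : Matrix m m K).mulVecLin = W := by
  apply le_antisymm
  · rintro _ ⟨v, hv, rfl⟩
    exact hW g hg v hv
  · intro v hv
    refine ⟨((g⁻¹ : Matrix.GeneralLinearGroup m K) : Matrix m m K).mulVec v, hW _ (G.inv_mem hg) v hv, ?_⟩
    rw [Matrix.mulVecLin_apply, Matrix.mulVec_mulVec, Units.mul_inv, Matrix.one_mulVec]

private lemma rankOn_conj67 (hW : IsSub G W) {P : Matrix m m K} (h : IsConj ⊥ G π P) :
    rankOn P W = rankOn π W := by
  obtain ⟨g, hg, hP⟩ := conj_mul67 h
  unfold rankOn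
  have e : W.map P.mulVecLin = (W.map π.mulVecLin).map (g : Matrix m m K).mulVecLin := by
    conv_lhs => rw [← map_eq67 hW hg]
    rw [← Submodule.map_comp, ← Submodule.map_comp, ← Matrix.mulVecLin_mul, ← Matrix.mulVecLin_mul, hP]
  rw [e]
  refine ((Submodule.equivMapOfInjective (g : Matrix m m K).mulVecLin ?_ _).finrank_eq).symm
  intro v w hvw
  have h1 := congrArg (((g⁻¹ : Matrix.GeneralLinearGroup m K) : Matrix m m K).mulVec) hvw
  rw [Matrix.mulVecLin_apply, Matrix.mulVecLin_apply, Matrix.mulVec_mulVec, Matrix.mulVec_mulVec,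
    Units.inv_mul, Matrix.one_mulVec, Matrix.one_mulVec] at h1
  exact h1

/-! ### Linear algebra -/

section LA
variable {V : Type*} [AddCommGroup V] [Module K V] [FiniteDimensional K V] {N P : Module.End K V}
  {W : Submodule K V}

private lemma finrank_inf_ker67 (f : Module.End K V) (E : Submodule K V) :
    finrank K ↥(E ⊓ LinearMap.ker f) + finrank K ↥(E.map f) = finrank K E := by
  have h := TR.finrank_inf_ker f E
  rwa [inf_comm] at h

private lemma pow_apply67 (hP : P * P = P) (a : K) (n : ℕ) (v : V) :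
    ((1 + P - a • 1) ^ n) v = (2 - a) ^ n • P v + (1 - a) ^ n • (v - P v) := by
  have hPP : ∀ w, P (P w) = P w := fun w => LinearMap.congr_fun hP w
  induction n with
  | zero => simp
  | succ n ih =>
    rw [pow_succ', Module.End.mul_apply, ih]
    simp only [LinearMap.sub_apply, LinearMap.add_apply, Module.End.one_apply, LinearMap.smul_apply,
      map_add, map_smul, map_sub, hPP]
    module

private lemma mem_max67 (hP : P * P = P) (a : K) (v : V) :
    v ∈ Module.End.maxGenEigenspace (1 + P) a ↔ (a ≠ 2 → P v = 0) ∧ (a ≠ 1 → P v = v) := by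
  rw [Module.End.mem_maxGenEigenspace]
  have hPP : ∀ w, P (P w) = P w := fun w => LinearMap.congr_fun hP w
  constructor
  · rintro ⟨n, hn⟩
    rw [pow_apply67 hP] at hn
    have h1 : (2 - a) ^ n • P v = 0 := by
      have := congrArg P hn
      simpa [hPP] using this
    have h2 : (1 - a) ^ n • (v - P v) = 0 := by rwa [h1, zero_add] at hn
    refine ⟨fun ha => (smul_eq_zero.mp h1).resolve_left (pow_ne_zero _ (sub_ne_zero.mpr ha.symm)),
      fun ha => ?_⟩
    have := (smul_eq_zero.mp h2).resolve_left (pow_ne_zero _ (sub_ne_zero.mpr ha.symm))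
    exact (sub_eq_zero.mp this).symm
  · rintro ⟨h1, h2⟩
    refine ⟨1, ?_⟩
    rw [pow_apply67 hP, pow_one, pow_one]
    by_cases ha : a = 2
    · subst ha
      have h3 : P v = v := h2 (by norm_num)
      rw [h3]; simp
    · rw [h1 ha]
      by_cases hb : a = 1
      · subst hb; simp
      · have h3 := h2 hb
        rw [h1 ha] at h3
        rw [← h3]; simp

private lemma cnt_two67 (hP : P * P = P) (hPN : P * N = N) (hNP : N * P = 0)
    (hWP : ∀ v ∈ W, P v ∈ W) :
    finrank K ↥(W ⊓ LinearMap.ker N ⊓ Module.End.maxGenEigenspace (1 + P) 2) -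
      finrank K ↥(W.map N ⊓ Module.End.maxGenEigenspace (1 + P) 2) =
      finrank K (W.map P) - finrank K (W.map N) := by
  have hPP : ∀ w, P (P w) = P w := fun w => LinearMap.congr_fun hP w
  have hNP' : ∀ w, N (P w) = 0 := fun w => LinearMap.congr_fun hNP w
  have hPN' : ∀ w, P (N w) = N w := fun w => LinearMap.congr_fun hPN w
  have e1 : W ⊓ LinearMap.ker N ⊓ Module.End.maxGenEigenspace (1 + P) 2 = W.map P := by
    ext v
    rw [Submodule.mem_inf, Submodule.mem_inf, mem_max67 hP, LinearMap.mem_ker]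
    constructor
    · rintro ⟨⟨h1, -⟩, -, h2⟩
      exact ⟨v, h1, h2 (by norm_num)⟩
    · rintro ⟨w, hw, rfl⟩
      exact ⟨⟨hWP w hw, hNP' w⟩, fun h => absurd rfl h, fun _ => hPP w⟩
  have e2 : W.map N ⊓ Module.End.maxGenEigenspace (1 + P) 2 = W.map N := by
    rw [inf_eq_left]
    rintro _ ⟨w, hw, rfl⟩
    rw [mem_max67 hP]
    exact ⟨fun h => absurd rfl h, fun _ => hPN' w⟩
  rw [e1, e2]

private lemma cnt_one67 (hP : P * P = P) (hPN : P * N = N) (hNP : N * P = 0)
    (hWP : ∀ v ∈ W, P v ∈ W) :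
    finrank K ↥(W ⊓ LinearMap.ker N ⊓ Module.End.maxGenEigenspace (1 + P) 1) -
      finrank K ↥(W.map N ⊓ Module.End.maxGenEigenspace (1 + P) 1) =
      finrank K W - finrank K (W.map N) - finrank K (W.map P) := by
  have hPP : ∀ w, P (P w) = P w := fun w => LinearMap.congr_fun hP w
  have hNP' : ∀ w, N (P w) = 0 := fun w => LinearMap.congr_fun hNP w
  have hPN' : ∀ w, P (N w) = N w := fun w => LinearMap.congr_fun hPN w
  have e0 : Module.End.maxGenEigenspace (1 + P) (1 : K) = LinearMap.ker P := by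
    ext v
    rw [mem_max67 hP, LinearMap.mem_ker]
    exact ⟨fun h => h.1 (by norm_num), fun h => ⟨fun _ => h, fun h' => absurd rfl h'⟩⟩
  have e2 : W.map N ⊓ Module.End.maxGenEigenspace (1 + P) (1 : K) = ⊥ := by
    rw [eq_bot_iff, e0]
    rintro _ ⟨⟨w, hw, rfl⟩, h⟩
    rw [Submodule.mem_bot]
    rw [SetLike.mem_coe, LinearMap.mem_ker, hPN'] at h
    exact h
  have e3 : (W ⊓ LinearMap.ker N).map P = W.map P := by
    apply le_antisymm (Submodule.map_mono inf_le_left)
    rintro _ ⟨w, hw, rfl⟩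
    exact ⟨P w, ⟨hWP w hw, hNP' w⟩, hPP w⟩
  rw [e2, finrank_bot, Nat.sub_zero, e0]
  have h1 := finrank_inf_ker67 P (W ⊓ LinearMap.ker N)
  have h2 := finrank_inf_ker67 N W
  rw [e3] at h1
  omega

private lemma cnt_else67 (hP : P * P = P) {a : K} (h1 : a ≠ 1) (h2 : a ≠ 2) :
    finrank K ↥(W ⊓ LinearMap.ker N ⊓ Module.End.maxGenEigenspace (1 + P) a) -
      finrank K ↥(W.map N ⊓ Module.End.maxGenEigenspace (1 + P) a) = 0 := by
  have e : W ⊓ LinearMap.ker N ⊓ Module.End.maxGenEigenspace (1 + P) a = ⊥ := by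
    rw [eq_bot_iff]
    rintro v ⟨-, hv⟩
    rw [SetLike.mem_coe, mem_max67 hP] at hv
    rw [Submodule.mem_bot, ← hv.2 h1, hv.1 h2]
  rw [e, finrank_bot, Nat.zero_sub]

private lemma mem_max_one67 (a : K) (v : V) :
    v ∈ Module.End.maxGenEigenspace (1 : Module.End K V) a ↔ (a ≠ 1 → v = 0) := by
  have h := mem_max67 (P := (0 : Module.End K V)) (mul_zero 0) a v
  rw [add_zero] at h
  rw [h]
  constructor
  · rintro ⟨-, h⟩ ha
    exact (h ha).symm
  · intro h
    exact ⟨fun _ => rfl, fun ha => (h ha).symm⟩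

end LA

private lemma isSub_sub67 (hW : IsSub G W) {u : Matrix.GeneralLinearGroup m K} (hu : u ∈ G) {v : m → K}
    (hv : v ∈ W) : ((u : Matrix m m K) - 1).mulVec v ∈ W := by
  rw [Matrix.sub_mulVec, Matrix.one_mulVec]
  exact W.sub_mem (hW u hu v hv) hv

private lemma exists_data67 (hb : BadAt ⊥ G π W r) : ∃ u ∈ G, ∃ P : Matrix m m K, IsConj ⊥ G π P ∧
    P * ((u : Matrix m m K) - 1) = (u : Matrix m m K) - 1 ∧ ((u : Matrix m m K) - 1) * P = 0 ∧
    finrank K (W.map ((u : Matrix m m K) - 1).mulVecLin) = r := by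
  obtain ⟨γ', hγ', -, u, hu, P, hP, h1, h2, -, h3⟩ := hb 1 (Subgroup.one_mem _) ∅
  exact ⟨u, hu, P, hP, h1, h2, h3 1 (Subgroup.one_mem _) W fun v => Iff.rfl⟩

private lemma lin_mul67 (A B : Matrix m m K) : (A * B).mulVecLin = A.mulVecLin * B.mulVecLin := by
  rw [Matrix.mulVecLin_mul]; rfl

/-- FS1: take `g = 1`. -/
theorem frob_one (D : IsStrongMTPair ⊥ J G π) (hW : IsIrrSub G W) (hb : BadAt ⊥ G π W r) :
    HasFrob ⊥ G π W r (if 2 * r = finrank K W then 0 else 1) := by
  classical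
  obtain ⟨u, hu, P, hP, h1, h2, h3⟩ := exists_data67 hb
  set N : Module.End K (m → K) := ((u : Matrix m m K) - 1).mulVecLin with hN
  have hNN : ∀ v, N (N v) = 0 := by
    intro v
    rw [hN, Matrix.mulVecLin_apply, Matrix.mulVecLin_apply, Matrix.mulVec_mulVec]
    have e : ((u : Matrix m m K) - 1) * ((u : Matrix m m K) - 1) = 0 := by
      calc ((u : Matrix m m K) - 1) * ((u : Matrix m m K) - 1)
          = ((u : Matrix m m K) - 1) * (P * ((u : Matrix m m K) - 1)) := by rw [h1]
        _ = 0 := by rw [← Matrix.mul_assoc, h2, Matrix.zero_mul]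
    rw [e, Matrix.zero_mulVec]
  have hle : W.map N ≤ W ⊓ LinearMap.ker N := by
    rintro _ ⟨w, hw, rfl⟩
    exact ⟨isSub_sub67 hW.sub hu hw, hNN w⟩
  have hg1 : (((1 : Matrix.GeneralLinearGroup m K)) : Matrix m m K).mulVecLin = 1 := by
    rw [Units.val_one, Matrix.mulVecLin_one]; rfl
  have hcount : ∀ a : K, mlt (u : Matrix m m K) ((1 : Matrix.GeneralLinearGroup m K) : Matrix m m K) W a =
      if a = 1 then finrank K W - 2 * r else 0 := by
    intro a
    unfold mlt
    rw [hg1, ← hN]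
    split_ifs with ha
    · have e : Module.End.maxGenEigenspace (1 : Module.End K (m → K)) a = ⊤ := by
        rw [eq_top_iff]
        intro v _
        rw [mem_max_one67]
        exact fun h => absurd ha h
      rw [e, inf_top_eq, inf_top_eq]
      have h4 := finrank_inf_ker67 N W
      rw [h3] at h4
      rw [h3]
      omega
    · have e : Module.End.maxGenEigenspace (1 : Module.End K (m → K)) a = ⊥ := by
        rw [eq_bot_iff]
        intro v hv
        rw [mem_max_one67] at hv
        exact hv ha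
      rw [e, inf_bot_eq, inf_bot_eq, finrank_bot]
  have hdim : 2 * r ≤ finrank K W := by
    have h4 := finrank_inf_ker67 N W
    have h5 := Submodule.finrank_mono hle
    rw [h3] at h4 h5
    omega
  refine ⟨u, hu, 1, G.one_mem, ⟨⟨P, hP, h1, h2, by simp⟩, ⟨1, by simp⟩, ⟨1, fun v => ?_⟩, ?_⟩, h3, ?_⟩
  · rw [hg1, mem_max_one67]
    exact fun h => absurd rfl h
  · intro a b v w hv hw hva hwb n hn hab
    rw [Units.val_one, Matrix.one_mulVec] at hva hwb
    have e1 : (1 - a) • v = 0 := by rw [sub_smul, one_smul, ← hva, sub_self]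
    have e2 : (1 - b) • w = 0 := by rw [sub_smul, one_smul, ← hwb, sub_self]
    rw [← sub_eq_zero.mp ((smul_eq_zero.mp e1).resolve_right hv),
      ← sub_eq_zero.mp ((smul_eq_zero.mp e2).resolve_right hw)]
  · split_ifs with h
    · have e : {a : K | mlt (u : Matrix m m K) ((1 : Matrix.GeneralLinearGroup m K) : Matrix m m K) W a ≠ 0} =
          ∅ := by
        ext a
        simp only [Set.mem_ofPred_eq, Set.mem_empty_iff_false, iff_false, not_not]
        rw [hcount]
        split_ifs <;> omega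
      rw [e, Set.ncard_empty]
    · have e : {a : K | mlt (u : Matrix m m K) ((1 : Matrix.GeneralLinearGroup m K) : Matrix m m K) W a ≠ 0} =
          {1} := by
        ext a
        simp only [Set.mem_ofPred_eq, Set.mem_singleton_iff]
        rw [hcount]
        split_ifs with ha
        · simp only [ha, iff_true]
          omega
        · simp [ha]
      rw [e, Set.ncard_singleton]

/-- FS2: take `g = 1 + P`. -/
theorem frob_two (D : IsStrongMTPair ⊥ J G π) (hW : IsIrrSub G W) (hb : BadAt ⊥ G π W r)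
    (hs : HasSig ⊥ G π W s) (hrs : r < s) : HasFrob ⊥ G π W r 2 := by
  classical
  obtain ⟨u, hu, P, hP, h1, h2, h3⟩ := exists_data67 hb
  obtain ⟨P', hP', hmin⟩ := hs
  rw [rankOn_conj67 hW.sub hP', ← rankOn_conj67 hW.sub hP] at hmin
  obtain ⟨hPP, hco⟩ := conj_cochar67 D.coch hP
  obtain ⟨g, hg, hg2⟩ := hco 2 two_ne_zero
  have hg1 : (g : Matrix m m K) = 1 + P := by
    rw [hg2, two_smul]; abel
  set N : Module.End K (m → K) := ((u : Matrix m m K) - 1).mulVecLin with hN
  set p : Module.End K (m → K) := P.mulVecLin with hp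
  have hgl : (g : Matrix m m K).mulVecLin = 1 + p := by
    rw [hg1, Matrix.mulVecLin_add, Matrix.mulVecLin_one]; rfl
  have hpp : p * p = p := by rw [hp, ← lin_mul67, hPP]
  have hpN : p * N = N := by rw [hp, hN, ← lin_mul67, h1]
  have hNp : N * p = 0 := by rw [hp, hN, ← lin_mul67, h2, Matrix.mulVecLin_zero]
  have hWp : ∀ v ∈ W, p v ∈ W := by
    intro v hv
    have h4 := isSub_sub67 hW.sub hg hv
    rw [hg1] at h4
    simpa [hp] using h4
  have hne : (1 : K) ≠ 2 := by norm_num
  have hcount1 : mlt (u : Matrix m m K) (g : Matrix m m K) W 1 =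
      finrank K W - r - rankOn P W := by
    unfold mlt
    rw [hgl]
    have h4 := cnt_one67 (W := W) hpp hpN hNp hWp
    rw [h3] at h4
    exact h4
  have hcount2 : mlt (u : Matrix m m K) (g : Matrix m m K) W 2 = rankOn P W - r := by
    unfold mlt
    rw [hgl]
    have h4 := cnt_two67 (W := W) hpp hpN hNp hWp
    rw [h3] at h4
    exact h4
  have hcount3 : ∀ a : K, a ≠ 1 → a ≠ 2 → mlt (u : Matrix m m K) (g : Matrix m m K) W a = 0 := by
    intro a ha hb
    unfold mlt
    rw [hgl]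
    exact cnt_else67 hpp ha hb
  refine ⟨u, hu, g, hg, ⟨⟨P, hP, h1, h2, ?_⟩, ⟨2, ?_⟩, ⟨2, fun v => ?_⟩, ?_⟩, h3, ?_⟩
  · rw [hg1, Matrix.mul_add, Matrix.add_mul, Matrix.mul_one, Matrix.one_mul]
  · rw [hg1, Matrix.add_mul, Matrix.mul_add, Matrix.one_mul, Matrix.mul_one, h1, h2, add_zero, two_smul]
  · rw [hgl, mem_max67 hpp]
    refine ⟨fun h => absurd rfl h, fun _ => ?_⟩
    exact LinearMap.congr_fun hpN v
  · have key : ∀ (a : K) (v : m → K), v ≠ 0 → (g : Matrix m m K).mulVec v = a • v → a = 1 ∨ a = 2 := by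
      intro a v hv hva
      by_contra hcon
      push Not at hcon
      have h5 : v ∈ Module.End.maxGenEigenspace (1 + p) a := by
        rw [Module.End.mem_maxGenEigenspace]
        refine ⟨1, ?_⟩
        rw [pow_one, ← hgl, LinearMap.sub_apply, Matrix.mulVecLin_apply, hva]
        simp
      rw [mem_max67 hpp] at h5
      apply hv
      rw [← h5.2 hcon.1, h5.1 hcon.2]
    intro a b v w hv hw hva hwb n hn hab
    have h2n : (2 : K) ^ n ≠ 1 := by
      have : (2 : ℕ) ^ n ≠ 1 := by
        have := Nat.one_lt_two_pow hn.ne'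
        omega
      exact_mod_cast this
    rcases key a v hv hva with rfl | rfl <;> rcases key b w hw hwb with rfl | rfl
    · rfl
    · rw [one_pow] at hab
      exact absurd hab.symm h2n
    · rw [one_pow] at hab
      exact absurd hab h2n
    · rfl
  · have e : {a : K | mlt (u : Matrix m m K) (g : Matrix m m K) W a ≠ 0} = {1, 2} := by
      ext a
      simp only [Set.mem_ofPred_eq, Set.mem_insert_iff, Set.mem_singleton_iff]
      constructor
      · intro h
        by_contra hcon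
        push Not at hcon
        exact h (hcount3 a hcon.1 hcon.2)
      · rintro (rfl | rfl)
        · rw [hcount1]
          omega
        · rw [hcount2]
          omega
    rw [e, Set.ncard_pair hne]

end

/-! ### The examples -/

/-- FS3 -/
theorem hasExF_of {K : Type*} [Field K] [IsAlgClosed K] [CharZero K] {D s r k : ℕ}
    (h : ExcF D s r k) : HasExF K D s r k := by
  have key : AV.HasEx1 K D s r → ((k = 0 ∧ 2 * r = D) ∨ (k = 1 ∧ 2 * r ≠ D) ∨ (k = 2 ∧ r < s)) →
      HasExF K D s r k := by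
    rintro ⟨m, i1, i2, J, G, π, h1, h2, h3, h4⟩ hk
    refine ⟨m, i1, i2, J, G, π, h1, h2, fun W hW => ?_, h4⟩
    obtain ⟨h5, h6, h7⟩ := h3 W hW
    refine ⟨h5, h6, h7, ?_⟩
    have h8 := frob_one h1 hW h7
    rcases hk with ⟨rfl, hk⟩ | ⟨rfl, hk⟩ | ⟨rfl, hk⟩
    · rwa [if_pos (by rw [h5, hk])] at h8
    · rwa [if_neg (by rw [h5]; exact hk)] at h8
    · exact frob_two h1 hW h7 h6 hk
  rcases h with ⟨n, j, hn, hj, hjn, rfl, rfl, rfl, hk⟩ | ⟨n, hn, rfl, rfl, hk⟩
  · refine key (AV.ex_wedge K hn hj hjn) (Or.inr ?_)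
    obtain ⟨a, rfl⟩ : ∃ a, n = a + 2 := ⟨n - 2, by omega⟩
    obtain ⟨b, rfl⟩ : ∃ b, j = b + 2 := ⟨j - 2, by omega⟩
    have e1 : a + 2 - 2 = a := by omega
    have e2 : b + 2 - 1 = b + 1 := by omega
    have e3 : a + 2 - 1 = a + 1 := by omega
    rw [e1, e2, e3]
    have h1 : (a + 1).choose (b + 1) = a.choose b + a.choose (b + 1) := Nat.choose_succ_succ a b
    have h2 : (a + 1).choose (b + 2) = a.choose (b + 1) + a.choose (b + 2) :=
      Nat.choose_succ_succ a (b + 1)
    have h3 : (a + 2).choose (b + 2) = (a + 1).choose (b + 1) + (a + 1).choose (b + 2) :=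
      Nat.choose_succ_succ (a + 1) (b + 1)
    have h4 : 0 < a.choose b := Nat.choose_pos (by omega)
    rcases hk with rfl | rfl
    · exact Or.inl ⟨rfl, by omega⟩
    · exact Or.inr ⟨rfl, by omega⟩
  · obtain ⟨a, rfl⟩ : ∃ a, n = a + 3 := ⟨n - 3, by omega⟩
    have hex := AV.ex_spin K (n := a + 3) hn
    have e1 : a + 3 - 1 = a + 2 := by omega
    have e2 : a + 3 - 2 = a + 1 := by omega
    have e3 : a + 3 - 3 = a := by omega
    simp only [e1, e2, e3] at hex hk key ⊢
    have h0 : 0 < 2 ^ a := by positivity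
    have p1 : 2 ^ (a + 1) = 2 * 2 ^ a := by ring
    have p2 : 2 ^ (a + 2) = 4 * 2 ^ a := by ring
    rcases hk with ⟨rfl, rfl | rfl⟩ | ⟨rfl, rfl⟩
    · exact key hex.1 (Or.inr (Or.inl ⟨rfl, by omega⟩))
    · exact key hex.1 (Or.inr (Or.inr ⟨rfl, by omega⟩))
    · exact key hex.2 (Or.inl ⟨rfl, by omega⟩)

/-- FS4 -/
theorem exF_four (K : Type*) [Field K] [IsAlgClosed K] [CharZero K] (k : ℕ) (hk : k = 1 ∨ k = 2) :
    ∃ (m : Type) (_ : Fintype m) (_ : DecidableEq m) (J : Matrix m m K)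
      (G : Subgroup (Matrix.GeneralLinearGroup m K)) (π : Matrix m m K),
      IsStrongMTPair ⊥ J G π ∧ IsReductiveRep G ∧
      (∀ W, IsIrrSub G W → (finrank K W = 6 ∧ HasSig ⊥ G π W 3 ∧ BadAt ⊥ G π W 2 ∧
          HasFrob ⊥ G π W 2 k) ∨
        (finrank K W = 4 ∧ HasSig ⊥ G π W 1 ∧ BadAt ⊥ G π W 1 ∧ HasFrob ⊥ G π W 1 1)) ∧
      ¬ ContainsDer J G := by
  obtain ⟨m, i1, i2, J, G, π, h1, h2, h3, h4⟩ := AV.ex_four K
  refine ⟨m, i1, i2, J, G, π, h1, h2, fun W hW => ?_, h4⟩
  rcases h3 W hW with ⟨h5, h6, h7⟩ | ⟨h5, h6, h7⟩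
  · refine Or.inl ⟨h5, h6, h7, ?_⟩
    rcases hk with rfl | rfl
    · have h8 := frob_one h1 hW h7
      rwa [if_neg (by rw [h5]; norm_num)] at h8
    · exact frob_two h1 hW h7 h6 (by norm_num)
  · refine Or.inr ⟨h5, h6, h7, ?_⟩
    have h8 := frob_one h1 hW h7
    rwa [if_neg (by rw [h5]; norm_num)] at h8

end FR
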